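import Mathlib.Combinatorics.SimpleGraph.Basic
import Mathlib.Data.ZMod.Basic
import Mathlib.Data.Nat.Choose.Basic
import Mathlib.Data.Finset.Powerset
import Mathlib.Data.Set.Card
import Mathlib.Algebra.Order.Archimedean.Real.Basic
import Mathlib.Tactic

/-!
# There is no linear lower bound for the domination numbers of graph covers

For `m ≥ 1` let `F_m` be the graph with a vertex `z`, vertices `a ∈ {1, ..., 2m}` and one vertex for
every `m`-subset `x` of `{1, ..., 2m}`, where `z` is adjacent to all `a`, and `a` is adjacent to `x`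
when `a ∈ x`.  Then `γ(F_m) ≥ m`, but `F_m` has an `m`-fold cover with domination number at most
`3 m`: use voltages in `ℤ/m`, zero on the edges `z a` and such that the edges from the `m` elements
of `x` to `x` have all `m` voltages.  The fibre of `z` together with the vertices `(a, 0)` is
dominating.
-/

set_option autoImplicit false

namespace Pool.Agent.Results.MP_afd993_co.NoLinearBound

open Finset

/-- `S` is a dominating set of `F`. -/
def IsDominating {V : Type} (F : SimpleGraph V) (S : Finset V) : Prop :=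
  ∀ v, v ∉ S → ∃ w ∈ S, F.Adj v w

/-- The domination number. -/
noncomputable def domNum {V : Type} (F : SimpleGraph V) : ℕ :=
  sInf {k | ∃ S : Finset V, IsDominating F S ∧ S.card = k}

/-- `π` exhibits `G` as a `k`-fold cover of `F`. -/
def IsCover {V W : Type} (G : SimpleGraph V) (F : SimpleGraph W) (π : V → W) (k : ℕ) : Prop :=
  Function.Surjective π ∧ (∀ v, Set.BijOn π (G.neighborSet v) (F.neighborSet (π v))) ∧
    ∀ u : W, (π ⁻¹' {u}).ncard = k

/-! ### Voltage covers -/

/-- the cover of `F` with voltages `s` in a group -/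
def lift {W Γ : Type} [AddCommGroup Γ] (F : SimpleGraph W) (s : W → W → Γ)
    (hs : ∀ u v, s v u = - s u v) : SimpleGraph (W × Γ) where
  Adj p q := F.Adj p.1 q.1 ∧ q.2 = p.2 + s p.1 q.1
  symm := ⟨by
    rintro ⟨u, i⟩ ⟨v, j⟩ ⟨h1, h2⟩
    refine ⟨h1.symm, ?_⟩
    simp only at h2 ⊢
    rw [h2, hs u v, add_assoc, add_neg_cancel, add_zero]⟩
  loopless := ⟨fun p h => h.1.ne rfl⟩

theorem lift_isCover {W Γ : Type} [AddCommGroup Γ] [Finite Γ] (F : SimpleGraph W)
    (s : W → W → Γ) (hs : ∀ u v, s v u = - s u v) :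
    IsCover (lift F s hs) F Prod.fst (Nat.card Γ) := by
  refine ⟨fun u => ⟨(u, 0), rfl⟩, ?_, ?_⟩
  · rintro ⟨u, i⟩
    refine ⟨?_, ?_, ?_⟩
    · rintro ⟨v, j⟩ h
      exact h.1
    · rintro ⟨v, j⟩ h ⟨v', j'⟩ h' heq
      simp only at heq
      subst heq
      have h1 : j = i + s u v := h.2
      have h2 : j' = i + s u v := h'.2
      rw [h1, h2]
    · intro v hv
      exact ⟨(v, i + s u v), ⟨hv, rfl⟩, rfl⟩
  · intro u
    have h1 : (Prod.fst ⁻¹' {u} : Set (W × Γ)) = (fun i : Γ => (u, i)) '' Set.univ := by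
      ext ⟨v, j⟩
      simp [eq_comm]
    rw [h1, Set.ncard_image_of_injective _ (fun i j h => (Prod.ext_iff.1 h).2), Set.ncard_univ]

/-! ### The graphs -/

/-- the `m`-subsets of `{1, ..., 2m}` -/
abbrev X (m : ℕ) := {x : Finset (Fin (2 * m)) // x.card = m}

/-- the vertices of `F_m` -/
abbrev W (m : ℕ) := Unit ⊕ (Fin (2 * m) ⊕ X m)

/-- half of the adjacency relation of `F_m` -/
def rel (m : ℕ) : W m → W m → Prop
  | .inl _, .inr (.inl _) => True
  | .inr (.inl a), .inr (.inr x) => a ∈ x.1
  | _, _ => False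

/-- the graph `F_m` -/
def F (m : ℕ) : SimpleGraph (W m) where
  Adj u v := rel m u v ∨ rel m v u
  symm := ⟨fun _ _ h => h.symm⟩
  loopless := ⟨by
    rintro (u | a | x) h
    · exact h.elim (fun h => h) (fun h => h)
    · exact h.elim (fun h => h) (fun h => h)
    · exact h.elim (fun h => h) (fun h => h)⟩

/-- a bijection from `x` to `ℤ/m` -/
noncomputable def ex (m : ℕ) [NeZero m] (x : X m) : {a // a ∈ x.1} ≃ ZMod m :=
  Fintype.equivOfCardEq (by rw [ZMod.card, Fintype.card_coe]; exact x.2)

open Classical in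
/-- the voltage of the edge from `a` to `x` -/
noncomputable def φ (m : ℕ) [NeZero m] (x : X m) (a : Fin (2 * m)) : ZMod m :=
  if h : a ∈ x.1 then ex m x ⟨a, h⟩ else 0

theorem φ_surj (m : ℕ) [NeZero m] (x : X m) (t : ZMod m) : ∃ a ∈ x.1, φ m x a = t := by
  refine ⟨((ex m x).symm t).1, ((ex m x).symm t).2, ?_⟩
  unfold φ
  rw [dif_pos ((ex m x).symm t).2]
  simp

/-- the voltages -/
noncomputable def s (m : ℕ) [NeZero m] : W m → W m → ZMod m
  | .inr (.inl a), .inr (.inr x) => φ m x a
  | .inr (.inr x), .inr (.inl a) => - φ m x a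
  | _, _ => 0

theorem s_anti (m : ℕ) [NeZero m] (u v : W m) : s m v u = - s m u v := by
  rcases u with u | a | x <;> rcases v with v | b | y <;> simp [s]

theorem domNum_le {V : Type} (G : SimpleGraph V) (S : Finset V) (h : IsDominating G S) :
    domNum G ≤ S.card := Nat.sInf_le ⟨S, h, rfl⟩

theorem cover_le (m : ℕ) [NeZero m] : domNum (lift (F m) (s m) (s_anti m)) ≤ 3 * m := by
  classical
  set D : Finset (W m × ZMod m) :=
    (univ.image (fun i : ZMod m => ((Sum.inl (), i) : W m × ZMod m))) ∪
    (univ.image (fun a : Fin (2 * m) => ((Sum.inr (Sum.inl a), 0) : W m × ZMod m))) with hD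
  have hcard : D.card ≤ 3 * m := by
    refine (Finset.card_union_le _ _).trans ?_
    have h1 := Finset.card_image_le (s := (univ : Finset (ZMod m)))
      (f := fun i : ZMod m => ((Sum.inl (), i) : W m × ZMod m))
    have h2 := Finset.card_image_le (s := (univ : Finset (Fin (2 * m))))
      (f := fun a : Fin (2 * m) => ((Sum.inr (Sum.inl a), 0) : W m × ZMod m))
    rw [Finset.card_univ, ZMod.card] at h1
    rw [Finset.card_univ, Fintype.card_fin] at h2
    omega
  refine (domNum_le _ D ?_).trans hcard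
  rintro ⟨u | a | x, j⟩ hv
  · exfalso
    apply hv
    rw [hD, Finset.mem_union]
    left
    exact Finset.mem_image.2 ⟨j, Finset.mem_univ _, rfl⟩
  · refine ⟨(Sum.inl (), j), ?_, ?_⟩
    · rw [hD, Finset.mem_union]
      left
      exact Finset.mem_image.2 ⟨j, Finset.mem_univ _, rfl⟩
    · exact ⟨Or.inr trivial, by simp [s]⟩
  · obtain ⟨a, ha, hφ⟩ := φ_surj m x j
    refine ⟨(Sum.inr (Sum.inl a), 0), ?_, ?_⟩
    · rw [hD, Finset.mem_union]
      right
      exact Finset.mem_image.2 ⟨a, Finset.mem_univ _, rfl⟩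
    · exact ⟨Or.inr ha, by simp [s, hφ]⟩

theorem le_domNum (m : ℕ) (hm : 0 < m) : m ≤ domNum (F m) := by
  classical
  unfold domNum
  apply le_csInf
  · exact ⟨_, Finset.univ, fun v hv => absurd (Finset.mem_univ v) hv, rfl⟩
  · rintro k ⟨S, hS, rfl⟩
    by_contra hlt
    push Not at hlt
    set A : Finset (Fin (2 * m)) := univ.filter (fun a => (Sum.inr (Sum.inl a) : W m) ∈ S) with hA
    set Y : Finset (Finset (Fin (2 * m))) :=
      (univ.filter (fun x : X m => (Sum.inr (Sum.inr x) : W m) ∈ S)).image Subtype.val with hY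
    have hAc : A.card ≤ S.card := by
      apply Finset.card_le_card_of_injOn (fun a => (Sum.inr (Sum.inl a) : W m))
      · intro a ha
        have : a ∈ A := ha
        rw [hA, Finset.mem_filter] at this
        exact this.2
      · intro a _ b _ h
        simpa using h
    have hYc : Y.card ≤ S.card := by
      rw [hY]
      refine Finset.card_image_le.trans ?_
      apply Finset.card_le_card_of_injOn (fun x => (Sum.inr (Sum.inr x) : W m))
      · intro x hx
        have hx' : x ∈ univ.filter (fun x : X m => (Sum.inr (Sum.inr x) : W m) ∈ S) := hx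
        exact (Finset.mem_filter.1 hx').2
      · intro a _ b _ h
        simpa using h
    have hcompl : m + 1 ≤ (Aᶜ).card := by
      rw [Finset.card_compl, Fintype.card_fin]
      omega
    have hch : m + 1 ≤ (Finset.powersetCard m Aᶜ).card := by
      rw [Finset.card_powersetCard]
      have := Nat.choose_le_choose m hcompl
      rwa [Nat.choose_succ_self_right] at this
    obtain ⟨x, hx, hxY⟩ : ∃ x ∈ Finset.powersetCard m Aᶜ, x ∉ Y := by
      by_contra hcon
      push Not at hcon
      have : Finset.powersetCard m Aᶜ ⊆ Y := hcon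
      have := Finset.card_le_card this
      omega
    rw [Finset.mem_powersetCard] at hx
    have hxS : (Sum.inr (Sum.inr ⟨x, hx.2⟩) : W m) ∉ S := by
      intro h
      apply hxY
      rw [hY, Finset.mem_image]
      exact ⟨⟨x, hx.2⟩, Finset.mem_filter.2 ⟨Finset.mem_univ _, h⟩, rfl⟩
    obtain ⟨w, hw, hadj⟩ := hS _ hxS
    rcases w with u | a | y
    · exact hadj.elim (fun h => h) (fun h => h)
    · rcases hadj with h | h
      · exact h
      · have h1 : a ∈ Aᶜ := hx.1 h
        rw [Finset.mem_compl] at h1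
        apply h1
        rw [hA, Finset.mem_filter]
        exact ⟨Finset.mem_univ _, hw⟩
    · exact hadj.elim (fun h => h) (fun h => h)

/-- For every `c > 0` there are `k ≥ 1`, a finite graph `F` and a `k`-fold cover `G` of `F` with
`γ(G) < c k γ(F)`. -/
theorem result : ∀ c : ℝ, 0 < c → ∃ (k : ℕ) (V W : Type) (_ : Fintype V) (_ : Fintype W)
    (G : SimpleGraph V) (F : SimpleGraph W) (π : V → W),
    1 ≤ k ∧ IsCover G F π k ∧ (domNum G : ℝ) < c * (k : ℝ) * (domNum F : ℝ) := by
  intro c hc
  obtain ⟨m, hm⟩ := exists_nat_gt (3 / c)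
  have hm0 : 0 < m := by
    rcases Nat.eq_zero_or_pos m with h | h
    · subst h
      have : 0 < 3 / c := by positivity
      simp only [Nat.cast_zero] at hm
      linarith
    · exact h
  have : NeZero m := ⟨hm0.ne'⟩
  refine ⟨m, W m × ZMod m, W m, inferInstance, inferInstance,
    lift (F m) (s m) (s_anti m), F m, Prod.fst, hm0, ?_, ?_⟩
  · have := lift_isCover (F m) (s m) (s_anti m)
    rwa [Nat.card_zmod] at this
  · have h1 : (domNum (lift (F m) (s m) (s_anti m)) : ℝ) ≤ 3 * (m : ℝ) := by
      exact_mod_cast cover_le m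
    have h2 : (m : ℝ) ≤ (domNum (F m) : ℝ) := by exact_mod_cast le_domNum m hm0
    have h3 : 3 < c * (m : ℝ) := by
      rw [div_lt_iff₀ hc] at hm
      linarith
    have hm' : (0 : ℝ) < (m : ℝ) := by exact_mod_cast hm0
    calc (domNum (lift (F m) (s m) (s_anti m)) : ℝ) ≤ 3 * (m : ℝ) := h1
      _ < (c * (m : ℝ)) * (m : ℝ) := by nlinarith
      _ ≤ c * (m : ℝ) * (domNum (F m) : ℝ) := by
          apply mul_le_mul_of_nonneg_left h2
          positivity

end Pool.Agent.Results.MP_afd993_co.NoLinearBound
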